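import Pool.Agent.V1126.CTMetric

/-!
# Preimages of non-conical limit points can have positive Hausdorff dimension

`H` is the free group of rank three, `X` its Cayley tree, so `∂H` is the space of infinite reduced words.
`Z` is the quotient of `∂H` that collapses the limit set of each conjugate of the free factor generated by
the first two generators (and the pair of ends of each conjugate of the third generator).
-/

set_option autoImplicit false

namespace Pool.Agent.Results.MP_9c739d_al.PositiveDimension

open Pool.Agent.V1126.CT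

/-- There are a non-elementary convergence action of the free group of rank three on a metrizable compactum
and a Cannon-Thurston map such that the preimage of the set of non-conical limit points has positive
Hausdorff dimension for every visual metric. -/
theorem result :
    ∃ (Z : Type) (_ : TopologicalSpace Z) (_ : CompactSpace Z)
      (_ : TopologicalSpace.MetrizableSpace Z) (_ : MulAction (FreeGroup (Fin 3)) Z),
      IsConvergenceAction (FreeGroup (Fin 3)) Z ∧
      (∃ x y z : Z, x ∈ limitSet (FreeGroup (Fin 3)) Z ∧ y ∈ limitSet (FreeGroup (Fin 3)) Z ∧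
        z ∈ limitSet (FreeGroup (Fin 3)) Z ∧ x ≠ y ∧ y ≠ z ∧ x ≠ z) ∧
      ∃ f : Boundary 3 → Z, Continuous f ∧
        (∀ (g : FreeGroup (Fin 3)) (ξ : Boundary 3), f (g • ξ) = g • f ξ) ∧
        ∀ a : ℝ, 1 < a → (∃ m : MetricSpace (Boundary 3), IsVisual m a) ∧
          ∀ m : MetricSpace (Boundary 3), IsVisual m a →
            0 < @dimH (Boundary 3) m.toEMetricSpace
              (f ⁻¹' {z | z ∈ limitSet (FreeGroup (Fin 3)) Z ∧ ¬ IsConical (FreeGroup (Fin 3)) z}) := by
  refine ⟨Quo, inferInstance, inferInstance, inferInstance, inferInstance, isConvergence, ?_, quo,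
    continuous_quo, quo_smul, fun a ha => ⟨⟨_, isVisual_stdMetric 3 a ha⟩, fun m hm => ?_⟩⟩
  · obtain ⟨h1, h2, h3⟩ := exists_three
    exact ⟨_, _, _, quo_mem_limitSet _, quo_mem_limitSet _, quo_mem_limitSet _, h1, h2, h3⟩
  · apply dimH_pos m ha hm
    intro ξ hξ
    have hξ2 : ∀ k, (ξ.1 k).1 ≠ 2 := by
      intro k
      rcases hξ k with h | h <;> rw [h] <;> decide
    refine ⟨quo_mem_limitSet ξ, ?_⟩
    obtain ⟨η, hη, hne⟩ : ∃ η : Boundary 3, (∀ k, (η.1 k).1 ≠ 2) ∧ ξ ≠ η := by
      by_cases h : ξ = cst (0, true)
      · refine ⟨cst (1, true), fun k => by show (1 : Fin 3) ≠ 2; decide, ?_⟩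
        rw [h]
        intro h2
        have h3 := congrArg (fun ζ : Boundary 3 => ζ.1 0) h2
        exact absurd h3 (by show ((0, true) : Letter 3) ≠ (1, true); decide)
      · exact ⟨cst (0, true), fun k => by show (0 : Fin 3) ≠ 2; decide, h⟩
    exact not_conical hne (quo_eq hξ2 hη)

end Pool.Agent.Results.MP_9c739d_al.PositiveDimension
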